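import Mathlib

set_option autoImplicit false

namespace Pool.Agent.Results.MP_812af1_co.BalanceNotInvariant

open Matrix

/-- `H` is a Butson matrix `BH(m,n)`: all entries are in `D_m = {z : z^m = 1}` and
`H H^* = n I`. -/
def IsButson (m : ℕ) {n : ℕ} (H : Matrix (Fin n) (Fin n) ℂ) : Prop :=
  (∀ i j, H i j ^ m = 1) ∧ H * Hᴴ = (n : ℂ) • (1 : Matrix (Fin n) (Fin n) ℂ)

/-- One of the four operations: permuting rows, permuting columns, multiplying a row by an element
of `D_m`, multiplying a column by an element of `D_m`. -/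
inductive Step (m : ℕ) {n : ℕ} : Matrix (Fin n) (Fin n) ℂ → Matrix (Fin n) (Fin n) ℂ → Prop
  | permRows (H : Matrix (Fin n) (Fin n) ℂ) (σ : Equiv.Perm (Fin n)) :
      Step m H (fun i j => H (σ i) j)
  | permCols (H : Matrix (Fin n) (Fin n) ℂ) (σ : Equiv.Perm (Fin n)) :
      Step m H (fun i j => H i (σ j))
  | scaleRow (H : Matrix (Fin n) (Fin n) ℂ) (r : Fin n) (c : ℂ) (hc : c ^ m = 1) :
      Step m H (fun i j => if i = r then c * H i j else H i j)
  | scaleCol (H : Matrix (Fin n) (Fin n) ℂ) (r : Fin n) (c : ℂ) (hc : c ^ m = 1) :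
      Step m H (fun i j => if j = r then c * H i j else H i j)

/-- `H'` is obtained from `H` by a finite sequence of the operations. -/
def Equivalent (m : ℕ) {n : ℕ} (H H' : Matrix (Fin n) (Fin n) ℂ) : Prop :=
  Relation.ReflTransGen (Step m) H H'

/-- `H` is normalised: its first row and its first column consist of ones. -/
def IsNormalised {n : ℕ} [NeZero n] (H : Matrix (Fin n) (Fin n) ℂ) : Prop :=
  (∀ j, H 0 j = 1) ∧ ∀ i, H i 0 = 1

/-- each element of `D_m` occurs the same number of times in every row other than the first -/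
def RowBalanced (m : ℕ) {n : ℕ} [NeZero n] (H : Matrix (Fin n) (Fin n) ℂ) : Prop :=
  ∀ i, i ≠ 0 → ∀ z z' : ℂ, z ^ m = 1 → z' ^ m = 1 →
    Nat.card {j : Fin n // H i j = z} = Nat.card {j : Fin n // H i j = z'}

/-- each element of `D_m` occurs the same number of times in every column other than the first -/
def ColumnBalanced (m : ℕ) {n : ℕ} [NeZero n] (H : Matrix (Fin n) (Fin n) ℂ) : Prop :=
  ∀ j, j ≠ 0 → ∀ z z' : ℂ, z ^ m = 1 → z' ^ m = 1 →
    Nat.card {i : Fin n // H i j = z} = Nat.card {i : Fin n // H i j = z'}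

/-- The exponents of the example. -/
def E : Fin 16 → Fin 16 → Fin 4 := ![
  ![0,0,0,0,0,0,0,0,0,0,0,0,0,0,0,0],
  ![0,0,0,0,1,1,1,1,2,2,2,2,3,3,3,3],
  ![0,0,1,3,1,1,2,3,0,0,3,3,1,2,2,2],
  ![0,0,3,1,0,2,3,2,0,2,3,1,2,3,1,1],
  ![0,1,1,3,0,3,2,3,2,3,1,1,2,2,0,0],
  ![0,1,2,2,0,3,3,1,0,1,2,2,0,1,3,3],
  ![0,1,3,0,3,2,0,0,2,3,2,3,1,1,2,1],
  ![0,1,3,3,2,0,2,1,3,2,0,0,3,1,1,2],
  ![0,2,0,1,3,0,2,3,1,1,2,3,2,0,1,3],
  ![0,2,1,3,3,1,0,2,3,1,0,2,2,0,3,1],
  ![0,2,2,2,3,1,1,0,1,3,3,1,0,3,0,2],
  ![0,2,3,2,1,2,1,3,3,1,1,0,0,3,2,0],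
  ![0,3,0,2,2,2,3,1,1,0,1,3,3,2,0,1],
  ![0,3,1,1,2,3,0,0,3,2,0,2,1,2,1,3],
  ![0,3,2,0,2,3,1,2,1,0,3,1,3,1,2,0],
  ![0,3,2,1,1,0,3,2,2,3,1,0,1,0,3,2]]

/-- the powers of `i` -/
noncomputable def root (e : Fin 4) : ℂ := Complex.I ^ (e : ℕ)

theorem root_eq (e : Fin 4) : root e = ![(1 : ℂ), Complex.I, -1, -Complex.I] e := by
  fin_cases e <;> simp [root, pow_succ]

theorem root_pow (e : Fin 4) : root e ^ 4 = 1 := by
  rw [root, ← pow_mul, mul_comm, pow_mul, Complex.I_pow_four, one_pow]

theorem root_ne_zero (e : Fin 4) : root e ≠ 0 := pow_ne_zero _ Complex.I_ne_zero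

theorem root_inj {a b : Fin 4} (h : root a = root b) : a = b := by
  rw [root_eq, root_eq] at h
  revert h
  fin_cases a <;> fin_cases b <;> simp [Complex.ext_iff] <;> norm_num

theorem exists_root {z : ℂ} (hz : z ^ 4 = 1) : ∃ e : Fin 4, z = root e := by
  have h : (z - 1) * (z + 1) * ((z - Complex.I) * (z + Complex.I)) = 0 := by
    have : Complex.I ^ 2 = -1 := Complex.I_sq
    linear_combination hz - (z ^ 2 - 1) * this
  rcases mul_eq_zero.mp h with h | h
  · rcases mul_eq_zero.mp h with h | h
    · exact ⟨0, by rw [root_eq]; simpa using sub_eq_zero.mp h⟩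
    · exact ⟨2, by rw [root_eq]; simpa using eq_neg_of_add_eq_zero_left h⟩
  · rcases mul_eq_zero.mp h with h | h
    · exact ⟨1, by rw [root_eq]; simpa using sub_eq_zero.mp h⟩
    · exact ⟨3, by rw [root_eq]; simpa using eq_neg_of_add_eq_zero_left h⟩

theorem root_mul (a b : Fin 4) : root a * root b = root (a + b) := by
  rw [root_eq, root_eq, root_eq]
  fin_cases a <;> fin_cases b <;> simp

theorem root_inv (a : Fin 4) : (root a)⁻¹ = root (-a) := by
  apply inv_eq_of_mul_eq_one_right
  rw [root_mul]; simp [root]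

theorem root_star (a : Fin 4) : star (root a) = root (-a) := by
  rw [root_eq, root_eq]
  fin_cases a <;> simp

/-- The example. -/
noncomputable def H : Matrix (Fin 16) (Fin 16) ℂ := fun i j => root (E i j)

theorem H_apply (i j : Fin 16) : H i j = root (E i j) := rfl

/-- a sum of roots, sorted by exponent -/
theorem sum_root (f : Fin 16 → Fin 4) : ∑ j, root (f j) =
    ∑ e : Fin 4, ((Finset.univ.filter fun j => f j = e).card : ℂ) * root e := by
  classical
  rw [← Finset.sum_fiberwise (s := Finset.univ) (g := f) (f := fun j => root (f j))]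
  refine Finset.sum_congr rfl fun e _ => ?_
  rw [Finset.sum_congr rfl (g := fun _ => root e)]
  · rw [Finset.sum_const, nsmul_eq_mul]
  · intro j hj
    rw [(Finset.mem_filter.mp hj).2]

theorem sum_root_zero (f : Fin 16 → Fin 4)
    (h0 : (Finset.univ.filter fun j => f j = 0).card = (Finset.univ.filter fun j => f j = 2).card)
    (h1 : (Finset.univ.filter fun j => f j = 1).card = (Finset.univ.filter fun j => f j = 3).card) :
    ∑ j, root (f j) = 0 := by
  rw [sum_root, Fin.sum_univ_four, h0, h1]
  simp only [root_eq]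
  simp

theorem counts : ∀ i k : Fin 16, i ≠ k →
    (Finset.univ.filter fun j => E i j + -E k j = 0).card =
      (Finset.univ.filter fun j => E i j + -E k j = 2).card ∧
    (Finset.univ.filter fun j => E i j + -E k j = 1).card =
      (Finset.univ.filter fun j => E i j + -E k j = 3).card := by
  decide +kernel

theorem butson : IsButson 4 H := by
  refine ⟨fun i j => root_pow _, ?_⟩
  ext i k
  rw [Matrix.mul_apply, Matrix.smul_apply, Matrix.one_apply]
  have h : ∀ j, H i j * Hᴴ j k = root (E i j + -E k j) := by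
    intro j
    rw [Matrix.conjTranspose_apply, H_apply, H_apply, root_star, root_mul]
  simp only [h]
  by_cases hik : i = k
  · subst hik
    simp [root]
  · rw [if_neg hik, smul_zero]
    exact sum_root_zero _ (counts i k hik).1 (counts i k hik).2

theorem card_eq (f : Fin 16 → Fin 4) (e : Fin 4) :
    Nat.card {j : Fin 16 // root (f j) = root e} = (Finset.univ.filter fun j => f j = e).card := by
  classical
  rw [Nat.card_eq_fintype_card, Fintype.card_subtype]
  congr 1
  ext j
  simp only [Finset.mem_filter, Finset.mem_univ, true_and]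
  exact ⟨fun h => root_inj h, fun h => by rw [h]⟩

theorem row_counts : ∀ i : Fin 16, i ≠ 0 → ∀ e : Fin 4,
    (Finset.univ.filter fun j => E i j = e).card = 4 := by
  decide +kernel

theorem col_counts : ∀ j : Fin 16, j ≠ 0 → ∀ e : Fin 4,
    (Finset.univ.filter fun i => E i j = e).card = 4 := by
  decide +kernel

/-- scaling several columns at once -/
theorem scale_cols (A : Matrix (Fin 16) (Fin 16) ℂ) (c : Fin 16 → ℂ) (hc : ∀ j, c j ^ 4 = 1)
    (s : Finset (Fin 16)) : Equivalent 4 A (fun i j => if j ∈ s then c j * A i j else A i j) := by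
  classical
  induction s using Finset.induction_on with
  | empty => simp only [Finset.notMem_empty, if_false]; exact Relation.ReflTransGen.refl
  | insert a s ha ih =>
    refine Relation.ReflTransGen.tail ih ?_
    have h := Step.scaleCol (m := 4) (fun i j => if j ∈ s then c j * A i j else A i j) a (c a) (hc a)
    have e : (fun i j => if j ∈ insert a s then c j * A i j else A i j) =
        (fun i j => if j = a then c a * (if j ∈ s then c j * A i j else A i j)
          else (if j ∈ s then c j * A i j else A i j) : Matrix (Fin 16) (Fin 16) ℂ) := by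
      funext i j
      by_cases hj : j = a
      · subst hj; simp [ha]
      · simp [hj]
    rw [e]; exact h

/-- The renormalised matrix: divide column `j` by the entry in row `1`, then swap rows `0` and `1`. -/
noncomputable def H' : Matrix (Fin 16) (Fin 16) ℂ :=
  fun i j => root (-E 1 j) * H (Equiv.swap 0 1 i) j

theorem H'_apply (i j : Fin 16) : H' i j = root (-E 1 j + E (Equiv.swap 0 1 i) j) := by
  rw [← root_mul]; rfl

theorem equiv_H' : Equivalent 4 H H' := by
  have h1 := scale_cols H (fun j => root (-E 1 j)) (fun j => root_pow _) Finset.univ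
  simp only [Finset.mem_univ, if_true] at h1
  exact Relation.ReflTransGen.tail h1
    (Step.permRows (fun i j => root (-E 1 j) * H i j) (Equiv.swap 0 1))

theorem bad_count0 : (Finset.univ.filter fun j => -E 1 j + E (Equiv.swap 0 1 4) j = 0).card = 2 := by
  decide +kernel

theorem bad_count1 : (Finset.univ.filter fun j => -E 1 j + E (Equiv.swap 0 1 4) j = 1).card = 6 := by
  decide +kernel

theorem counts' : ∀ i k : Fin 16, i ≠ k →
    (Finset.univ.filter fun j => (-E 1 j + E (Equiv.swap 0 1 i) j) + -(-E 1 j + E (Equiv.swap 0 1 k) j) = 0).card =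
      (Finset.univ.filter fun j => (-E 1 j + E (Equiv.swap 0 1 i) j) + -(-E 1 j + E (Equiv.swap 0 1 k) j) = 2).card ∧
    (Finset.univ.filter fun j => (-E 1 j + E (Equiv.swap 0 1 i) j) + -(-E 1 j + E (Equiv.swap 0 1 k) j) = 1).card =
      (Finset.univ.filter fun j => (-E 1 j + E (Equiv.swap 0 1 i) j) + -(-E 1 j + E (Equiv.swap 0 1 k) j) = 3).card := by
  decide +kernel

theorem butson' : IsButson 4 H' := by
  refine ⟨fun i j => by rw [H'_apply]; exact root_pow _, ?_⟩
  ext i k
  rw [Matrix.mul_apply, Matrix.smul_apply, Matrix.one_apply]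
  have h : ∀ j, H' i j * H'ᴴ j k =
      root ((-E 1 j + E (Equiv.swap 0 1 i) j) + -(-E 1 j + E (Equiv.swap 0 1 k) j)) := by
    intro j
    rw [Matrix.conjTranspose_apply, H'_apply, H'_apply, root_star, root_mul]
  simp only [h]
  by_cases hik : i = k
  · subst hik
    simp [root]
  · rw [if_neg hik, smul_zero]
    exact sum_root_zero _ (counts' i k hik).1 (counts' i k hik).2

/-- **Main result.** There are equivalent normalised `BH(4,16)` matrices `A`, `B` such that `A` is
row balanced and column balanced while `B` is not row balanced. -/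
theorem result : ∃ A B : Matrix (Fin 16) (Fin 16) ℂ,
    IsButson 4 A ∧ IsButson 4 B ∧ Equivalent 4 A B ∧ IsNormalised A ∧ IsNormalised B ∧
      RowBalanced 4 A ∧ ColumnBalanced 4 A ∧ ¬ RowBalanced 4 B := by
  refine ⟨H, H', butson, butson', equiv_H', ⟨?_, ?_⟩, ⟨?_, ?_⟩, ?_, ?_, ?_⟩
  · intro j
    have : E 0 j = 0 := by revert j; decide +kernel
    rw [H_apply, this]; simp [root]
  · intro i
    have : E i 0 = 0 := by revert i; decide +kernel
    rw [H_apply, this]; simp [root]
  · intro j
    have : -E 1 j + E (Equiv.swap 0 1 0) j = 0 := by revert j; decide +kernel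
    rw [H'_apply, this]; simp [root]
  · intro i
    have : -E 1 0 + E (Equiv.swap 0 1 i) 0 = 0 := by revert i; decide +kernel
    rw [H'_apply, this]; simp [root]
  · intro i hi z z' hz hz'
    obtain ⟨e, rfl⟩ := exists_root hz
    obtain ⟨e', rfl⟩ := exists_root hz'
    exact ((card_eq (fun j => E i j) e).trans (row_counts i hi e)).trans
      ((card_eq (fun j => E i j) e').trans (row_counts i hi e')).symm
  · intro j hj z z' hz hz'
    obtain ⟨e, rfl⟩ := exists_root hz
    obtain ⟨e', rfl⟩ := exists_root hz'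
    exact ((card_eq (fun i => E i j) e).trans (col_counts j hj e)).trans
      ((card_eq (fun i => E i j) e').trans (col_counts j hj e')).symm
  · intro h
    have h1 := h 4 (by decide) (root 0) (root 1) (root_pow 0) (root_pow 1)
    simp only [H'_apply] at h1
    rw [card_eq (fun j => -E 1 j + E (Equiv.swap 0 1 4) j) 0,
      card_eq (fun j => -E 1 j + E (Equiv.swap 0 1 4) j) 1, bad_count0, bad_count1] at h1
    norm_num at h1

end Pool.Agent.Results.MP_812af1_co.BalanceNotInvariant
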